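import Pool.Agent.Helper54_Exc.Stmts

/-! # EXC: no stationary state (module NOS) -/

set_option autoImplicit false

namespace Pool.Agent.Helper54Exc.H59

open Filter Topology Pool.Agent.Helper28Excl Pool.Agent.Helper54Exc

set_option linter.unusedSectionVars false
set_option linter.unusedVariables false

/-- The stationary coupling with one discrepancy (the first part of the library theorem
`no_state`, with the tail estimate). -/
theorem exists_oneDisc {k : Kern} (hp : ∀ n : ℕ, 1 ≤ n → 0 < k.p (-(n : ℤ)))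
    {Λ : C(Config, ℝ) →ₗ[ℝ] ℝ} (hΛ : InvState X k Λ)
    (hleft : Tendsto (fun x : ℤ => Λ (ev x)) atBot (𝓝 0))
    (hright : Tendsto (fun x : ℤ => Λ (ev x)) atTop (𝓝 1)) : ∃ ν, OneDisc k ν := by
  -- choose the windows
  have hwin : ∀ j : ℕ, ∃ K : ℕ, j + 3 ≤ K ∧ Λ (WW K j) ≤ (1 / 2) ^ j := by
    intro j
    set η : ℝ := (1 / 2) ^ j / (2 * (2 * j + 3) + 1) with hη
    have hη0 : 0 < η := by positivity
    obtain ⟨A1, hA1⟩ := (hleft.eventually (gt_mem_nhds hη0)).exists_mem
    have h1 : ∀ᶠ x : ℤ in atBot, Λ (ev x) < η := hleft.eventually (gt_mem_nhds hη0)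
    have h2 : ∀ᶠ x : ℤ in atTop, 1 - η < Λ (ev x) :=
      hright.eventually (lt_mem_nhds (by linarith))
    rw [eventually_atBot] at h1
    rw [eventually_atTop] at h2
    obtain ⟨a1, ha1⟩ := h1
    obtain ⟨a2, ha2⟩ := h2
    set K : ℕ := a1.natAbs + a2.natAbs + j + 3 with hK
    refine ⟨K, by omega, ?_⟩
    unfold WW
    rw [map_sum]
    have h3 : ∀ x ∈ nearBd K (j + 1), Λ (ew x) ≤ η := by
      intro x hx
      rw [nearBd, Finset.mem_filter, mem_box] at hx
      have hx2 := hx.2
      push_cast at hx2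
      unfold ew
      split_ifs with hneg
      · refine (ha1 x ?_).le
        rw [abs_of_neg hneg] at hx2
        omega
      · rw [map_sub, hΛ.2.1]
        have := ha2 x (by
          rw [abs_of_nonneg (not_lt.mp hneg)] at hx2
          omega)
        linarith
    refine (Finset.sum_le_sum h3).trans ?_
    rw [Finset.sum_const, nsmul_eq_mul]
    have h4 : ((nearBd K (j + 1)).card : ℝ) ≤ 2 * (2 * j + 3) + 1 := by
      have h5 : nearBd K (j + 1) ⊆ Finset.Icc (-(K + (j + 1) : ℤ)) (-(K - (j + 1) : ℤ))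
          ∪ Finset.Icc ((K : ℤ) - (j + 1)) (K + (j + 1)) := by
        intro x hx
        rw [nearBd, Finset.mem_filter, mem_box] at hx
        push_cast at hx
        rw [Finset.mem_union, Finset.mem_Icc, Finset.mem_Icc]
        rcases lt_or_ge x 0 with h | h
        · rw [abs_of_neg h] at hx
          left; omega
        · rw [abs_of_nonneg h] at hx
          right; omega
      have h6 := (Finset.card_le_card h5).trans (Finset.card_union_le _ _)
      rw [Int.card_Icc, Int.card_Icc] at h6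
      have h7 : (nearBd K (j + 1)).card ≤ 2 * (2 * j + 3) + 1 := by omega
      exact_mod_cast h7
    have h5 : η * (2 * (2 * (j : ℝ) + 3) + 1) = (1 / 2) ^ j := by
      rw [hη]; field_simp
    nlinarith
  choose Ks hKs hW using hwin
  set V : ℕ → C(Config, ℝ) := fun n => ∑ j ∈ Finset.range n, WW (Ks j) j with hV
  have hWW0 : ∀ K j z, 0 ≤ WW K j z := by
    intro K j z
    unfold WW
    rw [ContinuousMap.coe_sum, Finset.sum_apply]
    exact Finset.sum_nonneg fun x _ => ew_nonneg x z
  have hVapp : ∀ n z, V n z = ∑ j ∈ Finset.range n, WW (Ks j) j z := by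
    intro n z
    rw [hV]
    simp only
    rw [ContinuousMap.coe_sum, Finset.sum_apply]
  have hV0 : ∀ n z, 0 ≤ V n z := by
    intro n z
    rw [hVapp]
    exact Finset.sum_nonneg fun j _ => hWW0 _ _ _
  have hVm : ∀ n m, n ≤ m → ∀ z, V n z ≤ V m z := by
    intro n m hnm z
    rw [hVapp, hVapp]
    exact Finset.sum_le_sum_of_subset_of_nonneg (Finset.range_mono hnm) fun j _ _ => hWW0 _ _ _
  have hc : ∀ n, Λ (V n) ≤ 2 := by
    intro n
    rw [hV]
    simp only
    rw [map_sum]
    refine (Finset.sum_le_sum fun j _ => hW j).trans ?_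
    have h1 := (summable_geometric_two).sum_le_tsum (Finset.range n) fun j _ => by positivity
    rw [tsum_geometric_two] at h1
    exact h1
  obtain ⟨Λ0, hΛ0, hb, hext⟩ := exists_ext (J := X) (k := k) V hV0 hVm hΛ hc
  have hsumm : Summable fun j => Λ0 (WW (Ks j) j) := by
    refine summable_of_sum_range_le (c := 2) (fun j => hΛ0.1.nonneg fun z => hWW0 _ _ _)
      fun n => ?_
    have := hb n
    rw [hV] at this
    simp only at this
    rwa [map_sum] at this
  have hW0 := hsumm.tendsto_atTop_zero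
  obtain ⟨ν, hν, hν1, hν2, hsm, hexc, hkap, hmono, z0, hz0⟩ :=
    structure_thm hΛ0 hext hKs hW0 hp
  -- monotonicity
  have hmono' : ∀ x y : ℤ, x ≤ y → Λ0 (ev x) ≤ Λ0 (ev y) := by
    intro x y hxy
    obtain ⟨n, rfl⟩ := Int.le.dest hxy
    clear hxy
    induction n with
    | zero => simp
    | succ n ih =>
      refine ih.trans ?_
      have := hmono (x + n)
      push_cast
      rw [← add_assoc]
      exact this
  have htail : ∀ ε : ℝ, 0 < ε → ∃ A : ℕ, (∀ x : ℤ, x ≤ -(A : ℤ) → Λ0 (ev x) ≤ ε) ∧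
      ∀ x : ℤ, (A : ℤ) ≤ x → 1 - ε ≤ Λ0 (ev x) := by
    intro ε hε
    obtain ⟨j, hj⟩ := (hW0.eventually (gt_mem_nhds hε)).exists
    have hwx : ∀ x ∈ nearBd (Ks j) (j + 1), Λ0 (ew x) < ε := by
      intro x hx
      refine lt_of_le_of_lt ?_ hj
      unfold WW
      rw [map_sum]
      exact Finset.single_le_sum (f := fun x => Λ0 (ew x))
        (fun y _ => hΛ0.1.nonneg fun z => ew_nonneg y z) hx
    have h3 := hKs j
    refine ⟨Ks j, fun x hx' => ?_, fun x hx' => ?_⟩
    · refine (hmono' _ _ hx').trans ?_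
      have := hwx (-(Ks j : ℤ)) (by
        rw [nearBd, Finset.mem_filter, mem_box, abs_neg, Nat.abs_cast]
        push_cast
        constructor <;> omega)
      unfold ew at this
      rw [if_pos (by omega)] at this
      exact this.le
    · have h4 := hmono' _ _ hx'
      have := hwx (Ks j : ℤ) (by
        rw [nearBd, Finset.mem_filter, mem_box, Nat.abs_cast]
        push_cast
        constructor <;> omega)
      unfold ew at this
      rw [if_neg (by omega), map_sub, hΛ0.2.1] at this
      linarith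
  have hρ1 : ∀ x, ν (pull pfst (ev x)) = Λ0 (ev x) := fun x => LinearMap.congr_fun hν1 (ev x)
  have hρ2 : ∀ x, ν (pull psnd (ev x)) = Λ0 (ev (x + 1)) := fun x =>
    LinearMap.congr_fun hν2 (ev x)
  refine ⟨ν, hν, hsm, hexc, hkap, fun ε hε => ?_⟩
  obtain ⟨A, hA1, hA2⟩ := htail ε hε
  refine ⟨A, fun c n hn x hx => ?_⟩
  cases c
  · have h1 : (1 : C(Config × Config, ℝ)) - vac false x = 1 - pull psnd (ev x) := rfl
    rw [h1, map_sub, hν.2.1, hρ2]
    have hx' : x ∈ Finset.Icc (n : ℤ) (2 * n : ℤ) := hx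
    rw [Finset.mem_Icc] at hx'
    have := hA2 (x + 1) (by omega)
    linarith
  · have h1 : (1 : C(Config × Config, ℝ)) - vac true x = pull pfst (ev x) := by
      show (1 : C(Config × Config, ℝ)) - (1 - pull pfst (ev x)) = pull pfst (ev x)
      abel
    rw [h1, hρ1]
    have hx' : x ∈ Finset.Icc (-(2 * n : ℤ)) (-(n : ℤ)) := hx
    rw [Finset.mem_Icc] at hx'
    exact hA1 x (by omega)

theorem nos (hBas : BasStmt) (hSte : SteStmt) (hEnd : EndStmt) (hAri : AriStmt) : NosStmt := by
  intro k c0 β hc0 hβ hlow Λ hΛ hleft hright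
  have hp : ∀ n : ℕ, 1 ≤ n → 0 < k.p (-(n : ℤ)) := by
    intro n hn
    have hn0 : (0 : ℝ) < n := by exact_mod_cast hn
    exact lt_of_lt_of_le (by positivity) (hlow n hn)
  obtain ⟨ν, hν⟩ := exists_oneDisc hp hΛ hleft hright
  have hβ2 : max β 2 < 3 := max_lt hβ (by norm_num)
  have hβ0 : 0 < max β 2 := lt_of_lt_of_le (by norm_num) (le_max_right β 2)
  have hlow' : ∀ n : ℕ, 1 ≤ n → c0 * (n : ℝ) ^ (-(max β 2)) ≤ k.p (-(n : ℤ)) := by
    intro n hn
    refine le_trans ?_ (hlow n hn)
    refine mul_le_mul_of_nonneg_left ?_ hc0.le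
    refine Real.rpow_le_rpow_of_exponent_le (by exact_mod_cast hn) ?_
    exact neg_le_neg (le_max_left β 2)
  refine hAri (max β 2) (Ret k ν) (le_max_right β 2) hβ2 ?_ ?_ ?_ ?_
  · intro c t n δ δ' hδ h
    unfold Ret at h ⊢
    filter_upwards [h] with N hN
    refine hN.trans (mul_le_mul_of_nonneg_right hδ ?_)
    positivity
  · exact hBas k ν c0 (max β 2) hc0 hβ0 hlow' hν
  · exact hSte k ν c0 (max β 2) hc0 hβ0 hlow' hν
  · exact hEnd k ν hν

end Pool.Agent.Helper54Exc.H59
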